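import Mathlib

open Filter Topology OnePoint

namespace Pool.Agent.Results.MP_5ab9c0_an.NotOC

universe u

section
variable {X : Type} [NormedAddCommGroup X] [NormedSpace ℝ X]

/-- A closed cone. -/
def IsCone (P : Set X) : Prop :=
  IsClosed P ∧ 0 ∈ P ∧ (∀ x ∈ P, ∀ y ∈ P, x + y ∈ P) ∧ (∀ c : ℝ, 0 ≤ c → ∀ x ∈ P, c • x ∈ P) ∧
    ∀ x ∈ P, -x ∈ P → x = 0

/-- Every increasing net with a supremum converges in norm to it. -/
def SupConv (P : Set X) : Prop :=
  ∀ (J : Type u) [Preorder J] [IsDirectedOrder J] [Nonempty J] (x : J → X) (s : X),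
    (∀ i j, i ≤ j → x j - x i ∈ P) → (∀ j, s - x j ∈ P) →
    (∀ v, (∀ j, v - x j ∈ P) → v - s ∈ P) → Tendsto x atTop (𝓝 s)

end

def P : Set (C(OnePoint ℕ, ℝ) × ℝ) := {x | (∀ t, 0 ≤ x.1 t) ∧ 0 ≤ x.2 ∧ x.2 ≤ x.1 ∞}

noncomputable def fin (f : ℕ → ℝ) (N : ℕ) (h : ∀ n, N ≤ n → f n = 0) : C(OnePoint ℕ, ℝ) :=
  continuousMapMkNat f 0 (tendsto_const_nhds.congr'
    ((eventually_ge_atTop N).mono fun n hn => (h n hn).symm))

lemma lim0 {J : Type u} [Preorder J] [Nonempty J] {g : J → ℝ} (h : Antitone g) (h0 : ∀ j, 0 ≤ g j)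
    (h1 : ∀ c, 0 ≤ c → (∀ j, c ≤ g j) → c ≤ 0) : Tendsto g atTop (𝓝 0) := by
  have hb : BddBelow (Set.range g) := ⟨0, Set.forall_mem_range.2 h0⟩
  have := tendsto_atTop_ciInf h hb
  rwa [le_antisymm (h1 _ (le_ciInf h0) (ciInf_le hb)) (le_ciInf h0)] at this

theorem result : ∃ (X : Type) (_ : NormedAddCommGroup X) (_ : NormedSpace ℝ X)
    (_ : CompleteSpace X) (P : Set X), IsCone P ∧ SupConv.{u} P ∧ ∃ (x : ℕ → X) (v : X),
    (∀ j k, j ≤ k → x k - x j ∈ P) ∧ (∀ j, v - x j ∈ P) ∧ ¬ ∃ l, Tendsto x atTop (𝓝 l) := by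
  refine ⟨_, inferInstance, inferInstance, inferInstance, P, ⟨?_, by simp [P], ?_, ?_, ?_⟩, ?_,
    fun n => (fin (fun m => if m < n then 1 else 0) n fun m hm => if_neg (by omega), 0), (1, 0),
    fun j k h => ⟨fun t => ?_, by simp, ?_⟩, fun j => ⟨fun t => ?_, by simp, ?_⟩, ?_⟩
  · simp only [P, Set.ofPred_and, Set.ofPred_forall]
    exact (isClosed_iInter fun t => isClosed_le continuous_const (by fun_prop)).inter
      ((isClosed_le continuous_const (by fun_prop)).inter (isClosed_le (by fun_prop) (by fun_prop)))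
  · rintro a ⟨h1, h2, h3⟩ b ⟨h4, h5, h6⟩
    exact ⟨fun t => add_nonneg (h1 t) (h4 t), add_nonneg h2 h5, add_le_add h3 h6⟩
  · rintro c hc a ⟨h1, h2, h3⟩
    exact ⟨fun t => mul_nonneg hc (h1 t), mul_nonneg hc h2, mul_le_mul_of_nonneg_left h3 hc⟩
  · rintro a ⟨h1, h2, -⟩ ⟨h4, h5, -⟩
    exact Prod.ext (ContinuousMap.ext fun t => le_antisymm (by simpa using h4 t) (h1 t))
      (le_antisymm (by simpa using h5) h2)
  · intro J _ _ _ x s hx hs hl
    have low : ∀ w, (∀ j, s - x j - w ∈ P) → -w ∈ P := fun w hw => by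
      simpa using hl (s - w) fun j => by rw [sub_right_comm]; exact hw j
    have h1 : Antitone fun j => (s - x j).1 := fun i j h t =>
      sub_le_sub_left (sub_nonneg.1 ((hx i j h).1 t)) _
    have h2 : Tendsto (fun j => (s - x j).2) atTop (𝓝 0) :=
      lim0 (fun i j h => sub_le_sub_left (sub_nonneg.1 (hx i j h).2.1) _) (fun j => (hs j).2.1) fun c h0 hc => by
        simpa using (low (0, c) fun j => ⟨by simpa using (hs j).1, sub_nonneg.2 (hc j), by
          have := (hs j).2.2
          simp only [Prod.snd_sub, Prod.fst_sub, sub_zero] at this ⊢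
          linarith⟩).2.1
    have h3 : Tendsto (fun j => (s - x j).1 ∞ - (s - x j).2) atTop (𝓝 0) :=
      lim0 (fun i j h => by
        have := (hx i j h).2.2
        simp only [Prod.snd_sub, Prod.fst_sub, ContinuousMap.sub_apply] at this ⊢
        linarith) (fun j => sub_nonneg.2 (hs j).2.2) fun c h0 hc => by
        simpa using (low (0, -c) fun j => ⟨by simpa using (hs j).1, by
          have := (hs j).2.1
          simp only [Prod.snd_sub] at this ⊢
          linarith, by
          have := hc j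
          simp only [Prod.snd_sub, Prod.fst_sub, sub_zero] at this ⊢
          linarith⟩).2.2
    have h4 : Tendsto (fun j => (s - x j).1) atTop (𝓝 0) := by
      refine ContinuousMap.tendsto_of_antitone_of_pointwise h1 fun t => ?_
      induction t using OnePoint.rec with
      | infty => simpa using h3.add h2
      | coe k =>
        refine lim0 (fun i j h => h1 h k) (fun j => (hs j).1 k) fun c h0 hc => ?_
        have := (low (fin (fun m => if m = k then c else 0) (k + 1) fun m hm => if_neg (by omega), 0)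
          fun j => ⟨fun t => ?_, by simpa using (hs j).2.1, sub_zero (s - x j).2 ▸
            (hs j).2.2.trans_eq (sub_zero _).symm⟩).1 k
        · exact neg_nonneg.1 (this.trans_eq (congrArg Neg.neg (if_pos rfl)))
        · induction t using OnePoint.rec with
          | infty => exact ((hs j).1 ∞).trans_eq (sub_zero _).symm
          | coe m =>
            refine sub_nonneg.2 (show (if m = k then c else 0) ≤ _ from ?_)
            split_ifs with h
            exacts [h ▸ hc j, (hs j).1 m]
    have h5 : Tendsto (fun j => s - x j) atTop (𝓝 0) := h4.prodMk_nhds h2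
    simpa using h5.const_sub s
  · induction t using OnePoint.rec with
    | infty => exact (sub_self _).ge
    | coe m =>
      refine sub_nonneg.2 (show (if m < j then (1 : ℝ) else 0) ≤ if m < k then 1 else 0 from ?_)
      split_ifs <;> first | omega | norm_num
  · exact (sub_self _).trans_le (sub_self _).ge
  · induction t using OnePoint.rec with
    | infty => exact sub_nonneg.2 zero_le_one
    | coe m =>
      refine sub_nonneg.2 (show (if m < j then (1 : ℝ) else 0) ≤ 1 from ?_)
      split_ifs <;> norm_num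
  · exact (sub_self _).trans_le (sub_nonneg.2 zero_le_one)
  · rintro ⟨l, hl⟩
    have h1 := ((hl.comp (tendsto_add_atTop_nat 1)).sub hl).fst_nhds.norm
    simp only [sub_self, Prod.fst_zero, norm_zero] at h1
    refine one_pos.not_ge (ge_of_tendsto' h1 fun n => le_trans ?_
      (ContinuousMap.norm_coe_le_norm _ (n : OnePoint ℕ)))
    show _ ≤ ‖(if n < n + 1 then (1 : ℝ) else 0) - if n < n then 1 else 0‖
    simp

end Pool.Agent.Results.MP_5ab9c0_an.NotOC
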